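import Pool.Agent.W464.WLP.Defs2

set_option autoImplicit false

open MvPolynomial Pool.Agent.W464.WLP

namespace Pool.Agent.W118.WLP

/-! Tasks L1 and L2 of project WLP. -/

section Uni

variable {K : Type*} [Field K]

theorem hom_latF {m k : ℕ} (ρ : Fin m → K) (a : Lat m k) : (latF ρ a).IsHomogeneous k := by
  unfold latF
  have h1 : (∏ i : Fin m, ∏ j ∈ Finset.range (a.1 i : ℕ),
      (C (((j : K) + 1)⁻¹) * (X i.succ - C (ρ i + (j : K)) * X 0)) :
        MvPolynomial (Fin (m + 1)) K).IsHomogeneous (∑ i, (a.1 i : ℕ)) := by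
    apply IsHomogeneous.prod
    intro i _
    have : (∏ j ∈ Finset.range (a.1 i : ℕ),
      (C (((j : K) + 1)⁻¹) * (X i.succ - C (ρ i + (j : K)) * X 0)) :
        MvPolynomial (Fin (m + 1)) K).IsHomogeneous (∑ j ∈ Finset.range (a.1 i : ℕ), 1) := by
      apply IsHomogeneous.prod
      intro j _
      exact ((isHomogeneous_X K _).sub (isHomogeneous_C_mul_X _ _)).C_mul _
    simpa using this
  have h2 : (∏ j ∈ Finset.range (k - ∑ i, (a.1 i : ℕ)),
      (C (((j : K) + 1)⁻¹) * (C ((k : K) - (j : K) + ∑ i, ρ i) * X 0 - ∑ i : Fin m, X i.succ)) :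
        MvPolynomial (Fin (m + 1)) K).IsHomogeneous (k - ∑ i, (a.1 i : ℕ)) := by
    have : (∏ j ∈ Finset.range (k - ∑ i, (a.1 i : ℕ)),
      (C (((j : K) + 1)⁻¹) * (C ((k : K) - (j : K) + ∑ i, ρ i) * X 0 - ∑ i : Fin m, X i.succ)) :
        MvPolynomial (Fin (m + 1)) K).IsHomogeneous
          (∑ j ∈ Finset.range (k - ∑ i, (a.1 i : ℕ)), 1) := by
      apply IsHomogeneous.prod
      intro j _
      refine (IsHomogeneous.sub (isHomogeneous_C_mul_X _ _) ?_).C_mul _
      exact IsHomogeneous.sum _ _ _ fun i _ => isHomogeneous_X K _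
    simpa using this
  have := h1.mul h2
  rwa [Nat.add_sub_cancel' a.2] at this

theorem prod_choose [CharZero K] (n b : ℕ) :
    ∏ j ∈ Finset.range b, ((((j : K) + 1)⁻¹) * ((n : K) - (j : K))) = (n.choose b : K) := by
  induction b with
  | zero => simp
  | succ b ih =>
    rw [Finset.prod_range_succ, ih]
    have h1 : ((b : K) + 1) ≠ 0 := by exact_mod_cast Nat.succ_ne_zero b
    have h2 : ((n.choose (b + 1) : ℕ) : K) * ((b : K) + 1) = (n.choose b : K) * ((n : K) - b) := by
      by_cases h : b ≤ n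
      · have := Nat.choose_succ_right_eq n b
        have h3 : ((n.choose (b + 1) * (b + 1) : ℕ) : K) = ((n.choose b * (n - b) : ℕ) : K) := by
          rw [this]
        push_cast [Nat.cast_sub h] at h3
        exact h3
      · push Not at h
        rw [Nat.choose_eq_zero_of_lt h, Nat.choose_eq_zero_of_lt (by omega : n < b + 1)]
        simp
    field_simp
    rw [← h2, mul_comm]

theorem dual_latF [CharZero K] {m k : ℕ} (ρ : Fin m → K) (a b : Lat m k) :
    eval (latW ρ a) (latF ρ b) = if a = b then 1 else 0 := by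
  have hval : eval (latW ρ a) (latF ρ b) =
      (∏ i : Fin m, (((a.1 i : ℕ).choose (b.1 i : ℕ) : ℕ) : K)) *
        (((k - ∑ i, (a.1 i : ℕ)).choose (k - ∑ i, (b.1 i : ℕ)) : ℕ) : K) := by
    unfold latF latW
    simp only [map_mul, map_prod, map_sub, map_sum, eval_C, eval_X, Fin.cons_succ, Fin.cons_zero,
      mul_one]
    congr 1
    · apply Finset.prod_congr rfl
      intro i _
      rw [← prod_choose (K := K)]
      apply Finset.prod_congr rfl
      intro j _
      ring
    · rw [← prod_choose (K := K)]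
      apply Finset.prod_congr rfl
      intro j _
      rw [Finset.sum_add_distrib, Nat.cast_sub a.2, Nat.cast_sum]
      ring
  rw [hval]
  split_ifs with h
  · subst h
    simp
  · by_cases h1 : ∃ i, (a.1 i : ℕ) < b.1 i
    · obtain ⟨i, hi⟩ := h1
      rw [Finset.prod_eq_zero (Finset.mem_univ i), zero_mul]
      rw [Nat.choose_eq_zero_of_lt hi, Nat.cast_zero]
    · push Not at h1
      have h2 : ∃ i, (b.1 i : ℕ) < a.1 i := by
        by_contra h3
        push Not at h3
        apply h
        apply Subtype.ext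
        funext i
        exact Fin.ext (le_antisymm (h3 i) (h1 i))
      have h4 : ∑ i, (b.1 i : ℕ) < ∑ i, (a.1 i : ℕ) :=
        Finset.sum_lt_sum (fun i _ => h1 i) (by simpa using h2)
      have h5 : k - ∑ i, (a.1 i : ℕ) < k - ∑ i, (b.1 i : ℕ) := by
        have := a.2
        omega
      rw [Nat.choose_eq_zero_of_lt h5]
      simp

/-- the monomial of a lattice point -/
noncomputable def mon {m k : ℕ} (a : Lat m k) : Fin (m + 1) →₀ ℕ :=
  Finsupp.equivFunOnFinite.symm (Fin.cons (k - ∑ i, (a.1 i : ℕ)) fun i => (a.1 i : ℕ))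

theorem span_mon {m k : ℕ} (p : MvPolynomial (Fin (m + 1)) K) (hp : p.IsHomogeneous k) :
    p ∈ Submodule.span K (Set.range fun a : Lat m k => monomial (mon a) (1 : K)) := by
  rw [p.as_sum]
  apply Submodule.sum_mem
  intro d hd
  have hdeg : d.degree = k := by
    have := hp (mem_support_iff.mp hd)
    rwa [Finsupp.degree_eq_weight_one]
  have hsum : d 0 + ∑ i : Fin m, d i.succ = k := by
    rw [← hdeg, Finsupp.degree_eq_sum, Fin.sum_univ_succ]
  have hle : ∑ i : Fin m, d i.succ ≤ k := by omega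
  have hlt : ∀ i : Fin m, d i.succ < k + 1 := by
    intro i
    have := Finset.single_le_sum (f := fun i : Fin m => d i.succ) (fun _ _ => Nat.zero_le _)
      (Finset.mem_univ i)
    have h' : d i.succ ≤ ∑ i : Fin m, d i.succ := this
    omega
  have e : monomial d (coeff d p) = coeff d p • monomial (mon (⟨fun i => ⟨d i.succ, hlt i⟩, hle⟩ :
      Lat m k)) (1 : K) := by
    rw [smul_monomial, smul_eq_mul, mul_one]
    have hd2 : d = mon (⟨fun i => ⟨d i.succ, hlt i⟩, hle⟩ : Lat m k) := by
      apply Finsupp.ext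
      intro i
      refine Fin.cases ?_ (fun i => ?_) i
      · simp [mon]
        omega
      · simp [mon]
    rw [← hd2]
  rw [e]
  exact Submodule.smul_mem _ _ (Submodule.subset_span ⟨_, rfl⟩)

theorem uni_lat [CharZero K] {m k : ℕ} (ρ : Fin m → K) (p : MvPolynomial (Fin (m + 1)) K)
    (hp : p.IsHomogeneous k) (h0 : ∀ a : Lat m k, eval (latW ρ a) p = 0) : p = 0 := by
  classical
  set V := Submodule.span K (Set.range fun a : Lat m k => monomial (mon a) (1 : K)) with hV
  have : FiniteDimensional K V := FiniteDimensional.span_of_finite K (Set.finite_range _)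
  have hdim : Module.finrank K V ≤ Fintype.card (Lat m k) := finrank_range_le_card _
  let E : V →ₗ[K] (Lat m k → K) :=
    (LinearMap.pi fun a => (MvPolynomial.aeval (latW ρ a)).toLinearMap).comp V.subtype
  have hE : ∀ (v : V) (a : Lat m k), E v a = eval (latW ρ a) (v : MvPolynomial (Fin (m + 1)) K) := by
    intro v a
    simp [E, MvPolynomial.aeval_eq_eval]
  have hsurj : Function.Surjective E := by
    intro g
    refine ⟨∑ b, g b • ⟨latF ρ b, span_mon _ (hom_latF ρ b)⟩, ?_⟩
    funext a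
    rw [hE]
    simp only [Submodule.coe_sum, Submodule.coe_smul, map_sum, smul_eval, dual_latF]
    simp
  have hfin : Module.finrank K (Lat m k → K) = Fintype.card (Lat m k) := by
    simp
  have hr := LinearMap.finrank_range_add_finrank_ker E
  rw [LinearMap.range_eq_top.mpr hsurj, finrank_top, hfin] at hr
  have hker : Module.finrank K (LinearMap.ker E) = 0 := by omega
  rw [Submodule.finrank_eq_zero] at hker
  have hpk : (⟨p, span_mon p hp⟩ : V) ∈ LinearMap.ker E := by
    rw [LinearMap.mem_ker]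
    funext a
    rw [hE]
    exact h0 a
  rw [hker, Submodule.mem_bot] at hpk
  exact congrArg Subtype.val hpk

end Uni

/-- Task L1. -/
theorem l1 : L1 := fun _ _ _ _ _ ρ =>
  ⟨fun a => hom_latF ρ a, fun a b => dual_latF ρ a b, fun p hp h0 => uni_lat ρ p hp h0⟩

section Inv

variable {K : Type*} [Field K]

/-- the translation by `ρ` -/
noncomputable def tr {m : ℕ} (ρ : Fin m → K) :
    MvPolynomial (Fin (m + 1)) K →ₐ[K] MvPolynomial (Fin (m + 1)) K :=
  aeval (Fin.cons (X 0) fun j => X j.succ + C (ρ j) * X 0)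

theorem hom_tr {m n : ℕ} (ρ : Fin m → K) (p : MvPolynomial (Fin (m + 1)) K)
    (hp : p.IsHomogeneous n) : (tr ρ p).IsHomogeneous n := by
  have := hp.aeval (Fin.cons (X 0) fun j => X j.succ + C (ρ j) * X 0 :
    Fin (m + 1) → MvPolynomial (Fin (m + 1)) K) (n := 1) (by
      intro i
      refine Fin.cases ?_ (fun i => ?_) i
      · exact isHomogeneous_X K _
      · exact (isHomogeneous_X K _).add (isHomogeneous_C_mul_X _ _))
  rw [one_mul] at this
  exact this

theorem eval_tr {m : ℕ} (ρ x : Fin m → K) (p : MvPolynomial (Fin (m + 1)) K) :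
    eval (Fin.cons 1 x : Fin (m + 1) → K) (tr ρ p) = eval (Fin.cons 1 (x + ρ) : Fin (m + 1) → K) p := by
  unfold tr
  have : (eval (Fin.cons 1 x : Fin (m + 1) → K)) (aeval (Fin.cons (X 0) fun j => X j.succ + C (ρ j) * X 0 :
    Fin (m + 1) → MvPolynomial (Fin (m + 1)) K) p) =
      ((aeval (Fin.cons 1 x : Fin (m + 1) → K)).comp (aeval (Fin.cons (X 0) fun j => X j.succ + C (ρ j) * X 0 :
    Fin (m + 1) → MvPolynomial (Fin (m + 1)) K))) p := by
    simp [MvPolynomial.aeval_eq_eval]
  rw [this]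
  have h2 : ((aeval (Fin.cons 1 x : Fin (m + 1) → K)).comp (aeval (Fin.cons (X 0) fun j => X j.succ + C (ρ j) * X 0 :
    Fin (m + 1) → MvPolynomial (Fin (m + 1)) K))) = (aeval (Fin.cons 1 (x + ρ) : Fin (m + 1) → K) :
      MvPolynomial (Fin (m + 1)) K →ₐ[K] K) := by
    apply MvPolynomial.algHom_ext
    intro i
    refine Fin.cases ?_ (fun i => ?_) i
    · simp
    · simp
  rw [h2, MvPolynomial.aeval_eq_eval]

theorem dvd_tr {m : ℕ} (ρ : Fin m → K) (p : MvPolynomial (Fin (m + 1)) K) :
    (X 0 : MvPolynomial (Fin (m + 1)) K) ∣ tr ρ p - p := by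
  rw [← Ideal.mem_span_singleton, ← Ideal.Quotient.eq]
  have h : ((Ideal.Quotient.mkₐ K (Ideal.span {(X 0 : MvPolynomial (Fin (m + 1)) K)})).comp (tr ρ)) =
      Ideal.Quotient.mkₐ K (Ideal.span {(X 0 : MvPolynomial (Fin (m + 1)) K)}) := by
    apply MvPolynomial.algHom_ext
    intro i
    simp only [tr, AlgHom.comp_apply, aeval_X, Ideal.Quotient.mkₐ_eq_mk]
    refine Fin.cases ?_ (fun i => ?_) i
    · simp
    · rw [Fin.cons_succ, Ideal.Quotient.eq, Ideal.mem_span_singleton]
      exact ⟨C (ρ i), by ring⟩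
  exact congrArg (fun φ : MvPolynomial (Fin (m + 1)) K →ₐ[K] _ => φ p) h

theorem hom_of_mul {m n : ℕ} (r : MvPolynomial (Fin (m + 1)) K)
    (h : (X 0 * r).IsHomogeneous (n + 1)) : r.IsHomogeneous n := by
  intro d hd
  have h1 : coeff (Finsupp.single 0 1 + d) (X 0 * r) ≠ 0 := by
    rwa [coeff_X_mul]
  have h2 := h h1
  rw [map_add] at h2
  simp only [Finsupp.weight_single, Pi.one_apply, smul_eq_mul, mul_one] at h2
  omega

theorem tr_eq [CharZero K] {m k : ℕ} (ρ : Fin m → K)
    (p : MvPolynomial (Fin (m + 1)) K) (hp : p.IsHomogeneous (k + 1))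
    (h0 : ∀ a : Lat m k, eval (latW 0 a) p = 0) (h1 : ∀ a : Lat m k, eval (latW ρ a) p = 0) :
    tr ρ p = p := by
  obtain ⟨r, hr⟩ := dvd_tr ρ p
  have hh : (tr ρ p - p).IsHomogeneous (k + 1) := (hom_tr ρ p hp).sub hp
  rw [hr] at hh
  have hr0 : r = 0 := by
    apply uni_lat (0 : Fin m → K) r (hom_of_mul r hh)
    intro a
    have e1 : eval (latW 0 a) (X 0 * r) = eval (latW 0 a) r := by
      rw [map_mul, eval_X]
      simp [latW]
    rw [← e1, ← hr, map_sub, h0 a, sub_zero]
    have e2 : (latW (0 : Fin m → K) a) = Fin.cons 1 (fun i => ((a.1 i : ℕ) : K)) := by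
      simp [latW]
    rw [e2, eval_tr]
    exact h1 a
  rw [hr0, mul_zero] at hr
  exact sub_eq_zero.mp hr

theorem inv_nat {m : ℕ} (ρ : Fin m → K) (p : MvPolynomial (Fin (m + 1)) K) (h : tr ρ p = p)
    (x : Fin m → K) (n : ℕ) :
    eval (Fin.cons 1 (x + (n : K) • ρ) : Fin (m + 1) → K) p =
      eval (Fin.cons 1 x : Fin (m + 1) → K) p := by
  induction n with
  | zero => simp
  | succ n ih =>
    rw [← ih]
    conv_rhs => rw [← h]
    rw [eval_tr]
    congr 2
    push_cast
    rw [add_smul, one_smul, add_assoc]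

theorem inv_all [CharZero K] {m : ℕ} (ρ : Fin m → K) (p : MvPolynomial (Fin (m + 1)) K)
    (h : tr ρ p = p) (x : Fin m → K) (s : K) :
    eval (Fin.cons 1 (x + s • ρ) : Fin (m + 1) → K) p =
      eval (Fin.cons 1 x : Fin (m + 1) → K) p := by
  set F : Polynomial K := aeval (Fin.cons 1 fun j => Polynomial.C (x j) + Polynomial.C (ρ j) * Polynomial.X :
    Fin (m + 1) → Polynomial K) p with hF
  have key : ∀ t : K, F.eval t = eval (Fin.cons 1 (x + t • ρ) : Fin (m + 1) → K) p := by
    intro t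
    have h2 : ((Polynomial.aeval t).comp (aeval (Fin.cons 1 fun j => Polynomial.C (x j) + Polynomial.C (ρ j) * Polynomial.X :
      Fin (m + 1) → Polynomial K))) = (aeval (Fin.cons 1 (x + t • ρ) : Fin (m + 1) → K) :
      MvPolynomial (Fin (m + 1)) K →ₐ[K] K) := by
      apply MvPolynomial.algHom_ext
      intro i
      simp only [AlgHom.comp_apply, aeval_X]
      refine Fin.cases ?_ (fun i => ?_) i
      · simp only [Fin.cons_zero, map_one]
      · simp only [Fin.cons_succ, map_add, map_mul, Polynomial.aeval_X, Polynomial.aeval_C,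
          Pi.add_apply, Pi.smul_apply, smul_eq_mul, Algebra.algebraMap_self, RingHom.id_apply]
        ring
    have h3 := congrArg (fun φ : MvPolynomial (Fin (m + 1)) K →ₐ[K] K => φ p) h2
    simp only [AlgHom.comp_apply, MvPolynomial.aeval_eq_eval] at h3
    rw [hF, ← Polynomial.coe_aeval_eq_eval]
    exact h3
  have hc : F = Polynomial.C (eval (Fin.cons 1 x : Fin (m + 1) → K) p) := by
    apply Polynomial.eq_of_infinite_eval_eq
    apply Set.Infinite.mono (s := Set.range (fun n : ℕ => (n : K)))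
    · rintro _ ⟨n, rfl⟩
      simp only [Set.mem_ofPred_eq, key, Polynomial.eval_C]
      exact inv_nat ρ p h x n
    · exact Set.infinite_range_of_injective Nat.cast_injective
  rw [← key, hc, Polynomial.eval_C]

end Inv

/-- Task L2. -/
theorem l2 : L2 := fun _ _ _ _ _ ρ p hp h0 h1 x s => inv_all ρ p (tr_eq ρ p hp h0 h1) x s

end Pool.Agent.W118.WLP
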